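import Pool.Agent.CIP.FV
import Pool.Agent.CIP.UA

set_option autoImplicit false

open MeasureTheory Pointwise

namespace Pool.Agent.Results.MP_f07e0d_pr.Unconditional

/-- The optimal concentration inequality, in both of its forms and without any additional body, for
every log-concave probability measure which is invariant under the reflections in the coordinate
hyperplanes, and every convex Borel set, with a factor which is polylogarithmic in the dimension
(for sets whose complement has measure at least `exp (-p)`). -/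
theorem result (n : ℕ) (μ : Measure (EuclideanSpace ℝ (Fin n)))
    (hμ : IsProbabilityMeasure μ)
    (hunc : ∀ σ : Fin n → ℝ, (∀ i, σ i = 1 ∨ σ i = -1) →
      μ.map (fun x => WithLp.toLp 2 (fun i => σ i * x i)) = μ)
    (hlc : ∀ K L : Set (EuclideanSpace ℝ (Fin n)), IsCompact K → K.Nonempty →
        IsCompact L → L.Nonempty → ∀ t : ℝ, 0 ≤ t → t ≤ 1 →
          μ K ^ t * μ L ^ (1 - t) ≤ μ (t • K + (1 - t) • L))
    (p : ℝ) (hp : 2 ≤ p) (A : Set (EuclideanSpace ℝ (Fin n))) (hA : MeasurableSet A)
    (hAconv : Convex ℝ A) (c : ℝ)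
    (hc : Real.log (n + 2) * Real.log (2 + n / p) * min ((1 + n / p) ^ ((1:ℝ) / 4))
      (1 + Real.log ((n + 1) / (1 - μ.real A)) / p) ≤ c) :
    2 * Real.exp p * μ.real A *
        (1 - μ.real (A +
          (10000000000000000 * c) • {x : EuclideanSpace ℝ (Fin n) |
            ∀ v : EuclideanSpace ℝ (Fin n),
              |inner ℝ v x| ^ p ≤ ∫ y, |inner ℝ v y| ^ p ∂μ}))
      ≤ (1 - μ.real A) *
        μ.real (A +
          (10000000000000000 * c) • {x : EuclideanSpace ℝ (Fin n) |
            ∀ v : EuclideanSpace ℝ (Fin n),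
              |inner ℝ v x| ^ p ≤ ∫ y, |inner ℝ v y| ^ p ∂μ}) := by
  have hp0 : 0 < p := by linarith
  have hu : Pool.CIP.Uncond μ := hunc
  have hn0 : (0:ℝ) ≤ n := Nat.cast_nonneg n
  have hnp : 0 ≤ (n:ℝ) / p := by positivity
  have h := Pool.CIP.main_uncond hu hlc (fun y hy q hq hy2 =>
    Pool.CIP.u2 hu (fun q hq v => Pool.CIP.mq_lt_top hu.symm hlc hq v) hq hy hy2)
    hA hAconv hp hc
  have ha1 : μ.real A ≤ 1 := measureReal_le_one
  have ha0 : 0 ≤ μ.real A := measureReal_nonneg
  have hl1 : 0 < Real.log ((n:ℝ) + 2) := Real.log_pos (by linarith)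
  have hl2 : 0 < Real.log (2 + (n:ℝ) / p) := Real.log_pos (by linarith)
  have hl3 : 0 ≤ Real.log (((n:ℝ) + 1) / (1 - μ.real A)) := by
    rcases ha1.eq_or_lt with h3 | h3
    · rw [h3]; simp
    · apply Real.log_nonneg
      rw [le_div_iff₀ (by linarith)]
      linarith
  have hc0 : 0 < c := by
    refine lt_of_lt_of_le (mul_pos (mul_pos hl1 hl2) (lt_min ?_ ?_)) hc
    · exact Real.rpow_pos_of_pos (by linarith) _
    · have : 0 ≤ Real.log (((n:ℝ) + 1) / (1 - μ.real A)) / p := div_nonneg hl3 hp0.le
      linarith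
  rw [← Pool.CIP.smul_Z_eq hp0 (by positivity)] at h
  exact h

end Pool.Agent.Results.MP_f07e0d_pr.Unconditional
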