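import Pool.Agent.CIP.Y

set_option autoImplicit false

open MeasureTheory Pointwise

namespace Pool.Agent.Results.MP_f07e0d_pr.Undilated

/-- The optimal concentration inequality, in both of its forms, for every symmetric log-concave
probability measure and every Borel set, with a factor that is an absolute constant as soon as the
measure of the set or of its complement is at most `exp (-√(n p))`. -/
theorem result (n : ℕ) (μ : Measure (EuclideanSpace ℝ (Fin n)))
    (hμ : IsProbabilityMeasure μ) (hsym : μ.map (fun x => -x) = μ)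
    (hlc : ∀ K L : Set (EuclideanSpace ℝ (Fin n)), IsCompact K → K.Nonempty →
        IsCompact L → L.Nonempty → ∀ t : ℝ, 0 ≤ t → t ≤ 1 →
          μ K ^ t * μ L ^ (1 - t) ≤ μ (t • K + (1 - t) • L))
    (p : ℝ) (hp : 2 ≤ p) (A : Set (EuclideanSpace ℝ (Fin n))) (hA : MeasurableSet A)
    (c : ℝ) (hc : 1 ≤ c)
    (h : Real.sqrt (n * p) ≤ c * max p (Real.log (1 / (μ.real A * (1 - μ.real A))))) :
    2 * Real.exp p * μ.real A *
        (1 - μ.real (A +
          (10000000000000 * c) • {x : EuclideanSpace ℝ (Fin n) |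
            ∀ v : EuclideanSpace ℝ (Fin n),
              |inner ℝ v x| ^ p ≤ ∫ y, |inner ℝ v y| ^ p ∂μ}))
      ≤ (1 - μ.real A) *
        μ.real (A +
          (10000000000000 * c) • {x : EuclideanSpace ℝ (Fin n) |
            ∀ v : EuclideanSpace ℝ (Fin n),
              |inner ℝ v x| ^ p ≤ ∫ y, |inner ℝ v y| ^ p ∂μ}) := by
  have h1 := Pool.CIP.main_undilated hsym hlc hA hp hc h
  rw [← Pool.CIP.smul_Z_eq (by linarith : (0:ℝ) < p) (by positivity)] at h1
  exact h1

end Pool.Agent.Results.MP_f07e0d_pr.Undilated
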