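import Pool.Agent.CIP.X

set_option autoImplicit false

open MeasureTheory Pointwise

namespace Pool.Agent.Results.MP_f07e0d_pr.UpToBody

/-- The optimal concentration inequality, in both of its forms, for every symmetric log-concave
probability measure and every Borel set `A`, with absolute constants, when the enlargement of `A`
also contains a bounded multiple of a symmetric convex body `K` of large measure. -/
theorem result (n : ℕ) (μ : Measure (EuclideanSpace ℝ (Fin n)))
    (hμ : IsProbabilityMeasure μ) (hsym : μ.map (fun x => -x) = μ)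
    (hlc : ∀ K L : Set (EuclideanSpace ℝ (Fin n)), IsCompact K → K.Nonempty →
        IsCompact L → L.Nonempty → ∀ t : ℝ, 0 ≤ t → t ≤ 1 →
          μ K ^ t * μ L ^ (1 - t) ≤ μ (t • K + (1 - t) • L))
    (p : ℝ) (hp : 2 ≤ p) (A : Set (EuclideanSpace ℝ (Fin n))) (hA : MeasurableSet A)
    (K : Set (EuclideanSpace ℝ (Fin n))) (hKc : IsCompact K) (hKconv : Convex ℝ K)
    (hKs : K = -K) (hK : min (μ.real A / 2) (1 / 4) ≤ μ.real K) (θ : ℝ)
    (hθ : 100 ≤ θ ∨ 1000 * p ≤ θ * Real.log (1 / (μ.real A * (1 - μ.real A)))) :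
    2 * Real.exp p * μ.real A *
        (1 - μ.real (A + θ • K +
          (7000000000000 : ℝ) • {x : EuclideanSpace ℝ (Fin n) |
            ∀ v : EuclideanSpace ℝ (Fin n),
              |inner ℝ v x| ^ p ≤ ∫ y, |inner ℝ v y| ^ p ∂μ}))
      ≤ (1 - μ.real A) *
        μ.real (A + θ • K +
          (7000000000000 : ℝ) • {x : EuclideanSpace ℝ (Fin n) |
            ∀ v : EuclideanSpace ℝ (Fin n),
              |inner ℝ v x| ^ p ≤ ∫ y, |inner ℝ v y| ^ p ∂μ}) := by
  have h := Pool.CIP.main_borel hsym hlc hA hKc hKconv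
    (fun x hx => by rw [hKs] at hx; exact hx) hK hp hθ
  rw [← Pool.CIP.smul_Z_eq (by linarith : (0:ℝ) < p) (by norm_num)] at h
  exact h

end Pool.Agent.Results.MP_f07e0d_pr.UpToBody
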